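import Pool.Agent.X264.GO.Ss

/-!
# Varieties, dense open subvarieties and finite etale coverings
-/

set_option autoImplicit false

namespace Pool.Agent.X264.GO

namespace Sys

variable {k : Type} [Field k]

/-- dense open subvarieties `U` of the varieties `X` of the system, with the homomorphisms
`π_1(U) → π_1(X)` -/
structure Opens (S : Sys k) where
  /-- the dense open immersions -/
  Opn : S.Fld → S.Fld → Type
  /-- the homomorphism of fundamental groups -/
  map : ∀ {X U}, Opn X U → (S.Gal U →* S.Gal X)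

variable {S : Sys k}

/-- the restriction of a representation of `π_1(X)` to `π_1(U)` -/
def Opens.restr (O : S.Opens) {X U : S.Fld} (o : O.Opn X U) {V : Type} [AddCommGroup V]
    [Module k V] (ρ : S.Rep X V) : S.Rep U V := MonoidHom.comp ρ (O.map o)

/-- **Hypothesis**: the homomorphisms `π_1(U) → π_1(X)` are surjective, restrictions of
representations in `A` are in `A`, and a representation is in `C` if its restriction is -/
def Opens.IsDense (O : S.Opens) (A C : S.Cls) : Prop :=
  ∀ (X U : S.Fld) (o : O.Opn X U), Function.Surjective (O.map o) ∧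
    ∀ (V : Type) [AddCommGroup V] [Module k V] (ρ : S.Rep X V),
      (A X V ρ → A U V (O.restr o ρ)) ∧ (C U V (O.restr o ρ) → C X V ρ)

/-- **Hypothesis** (Kedlaya's theorem if `B` is the set of affine spaces over the prime field): each
`X` has a dense open subvariety which is a finite etale covering of a variety in `B` -/
def Opens.IsKedlaya (O : S.Opens) (B : S.Fld → Prop) : Prop :=
  ∀ X : S.Fld, ∃ U Y : S.Fld, Nonempty (O.Opn X U) ∧ B Y ∧ Nonempty (S.Ext Y U)

theorem allFiniteDet_of_open {A C : S.Cls} {O : S.Opens} (hO : O.IsDense A C) {X U : S.Fld}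
    (o : O.Opn X U) (h : AllFiniteDet A C U) : AllFiniteDet A C X := by
  intro V _ _ _ ρ hρ hdet hAρ
  obtain ⟨hs, hAC⟩ := hO X U o
  refine (hAC V ρ).2 (h V (O.restr o ρ) ⟨hρ.1, fun T hT => hρ.2 T fun g v hv => ?_⟩ ?_
    ((hAC V ρ).1 hAρ))
  · obtain ⟨g', rfl⟩ := hs g
    exact hT g' v hv
  · obtain ⟨m, hm, hm'⟩ := hdet
    exact ⟨m, hm, fun g => hm' _⟩

theorem affine_spaces (hS : S.IsGalois) {A C : S.Cls} (hA : A.IsStable) (hC : C.IsStable)
    {O : S.Opens} (hO : O.IsDense A C) {B : S.Fld → Prop} (hB : O.IsKedlaya B) :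
    ((∀ X, AllFiniteDet A C X) ↔ ∀ X, B X → AllFiniteDet A C X) := by
  refine ⟨fun h X _ => h X, fun h X => ?_⟩
  obtain ⟨U, Y, ⟨o⟩, hY, ⟨e⟩⟩ := hB X
  exact allFiniteDet_of_open hO o
    (allFiniteDet_of_ext hS hA.1 hA.2.2.2 hC.2.1 hC.2.2.1 e (h Y hY))

end Sys

end Pool.Agent.X264.GO
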