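import Pool.Agent.X264.GO.Rep

/-!
# Determinants of irreducible representations and subgroups of finite index; coinduction
-/

set_option autoImplicit false

namespace Pool.Agent.X264.GO

section conj

variable {k : Type} [Field k] {Γ : Type} [Group Γ] (N : Subgroup Γ) [N.Normal]

/-- the product of the conjugates of a homomorphism of `N` -/
noncomputable def orb (δ : N →* k) (n : N) (q : Γ ⧸ N) : k :=
  Quotient.liftOn' q (fun g => δ (MulAut.conjNormal g n)) (by
    intro a b hab
    rw [QuotientGroup.leftRel_apply] at hab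
    have h1 : b = a * (⟨a⁻¹ * b, hab⟩ : N) := by simp
    set m : N := ⟨a⁻¹ * b, hab⟩ with hm
    have h2 : MulAut.conjNormal b n =
        MulAut.conjNormal a m * MulAut.conjNormal a n * (MulAut.conjNormal a m)⁻¹ := by
      ext
      rw [h1]
      simp [MulAut.conjNormal_apply]
      group
    change δ (MulAut.conjNormal a n) = δ (MulAut.conjNormal b n)
    rw [h2, map_mul, map_mul, mul_comm (δ _) (δ _), mul_assoc, ← map_mul, mul_inv_cancel, map_one,
      mul_one])

theorem orb_mk (δ : N →* k) (n : N) (g : Γ) :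
    orb N δ n (g : Γ ⧸ N) = δ (MulAut.conjNormal g n) := rfl

variable [N.FiniteIndex]

/-- the transfer -/
noncomputable def transf (δ : N →* k) (n : N) : k := by
  classical
  haveI : Fintype (Γ ⧸ N) := Fintype.ofFinite _
  exact ∏ q : Γ ⧸ N, orb N δ n q

theorem prod_conj (δ : N →* k) (n : N) (g : Γ) [Fintype (Γ ⧸ N)] :
    ∏ q : Γ ⧸ N, δ (MulAut.conjNormal (g * q.out) n) = transf N δ n := by
  classical
  have h1 : ∀ q : Γ ⧸ N, δ (MulAut.conjNormal (g * q.out) n) = orb N δ n (g • q) := by
    intro q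
    rw [← orb_mk]
    congr 1
    conv_rhs => rw [← QuotientGroup.out_eq' q]
    rfl
  simp_rw [h1]
  rw [transf]
  have h2 : ∏ q : Γ ⧸ N, orb N δ n (g • q) = ∏ q : Γ ⧸ N, orb N δ n q :=
    Equiv.prod_comp (MulAction.toPerm g : Equiv.Perm (Γ ⧸ N)) (fun q => orb N δ n q)
  rw [h2]
  congr 1
  exact Finset.ext fun _ => by simp

end conj

section main

variable {k : Type} [Field k] {Γ : Type} [Group Γ] (Δ : Subgroup Γ) [Δ.FiniteIndex]
variable {V : Type} [AddCommGroup V] [Module k V] [FiniteDimensional k V]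
variable {W : Type} [AddCommGroup W] [Module k W] [FiniteDimensional k W]

/-- **determinants of finite order**: if an irreducible representation of a subgroup of finite index
is a quotient of the restriction of an irreducible representation and has a determinant of finite
order, then the determinant of the latter has finite order, too -/
theorem finiteDet_of_quotient (τ : Representation k Γ V) (hτ : IsIrr τ)
    (ρ : Representation k Δ W) (hρ : IsIrr ρ) (hdet : FiniteDet ρ) (π : V →ₗ[k] W)
    (hπ : IsMap (τ.comp Δ.subtype) ρ π) (hπ0 : π ≠ 0) : FiniteDet τ := by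
  classical
  let N : Subgroup Γ := Δ.normalCore
  have hNΔ : N ≤ Δ := Δ.normalCore_le
  have : Fintype (Γ ⧸ N) := Fintype.ofFinite _
  let ρN : Representation k N W := ρ.comp (Subgroup.inclusion hNΔ)
  have := hρ.1
  obtain ⟨U, hU, hσ⟩ := exists_irr_quotient ρN
  let σ : Representation k N (W ⧸ U) := quotRep ρN U hU
  have hσ' : IsIrr σ := hσ
  have := hσ'.1
  let δ : N →* k := (LinearMap.det : ((W ⧸ U) →ₗ[k] (W ⧸ U)) →* k).comp σ
  -- conjugates
  let c : Γ → Representation k N (W ⧸ U) := fun g => σ.comp (MulAut.conjNormal g).toMonoidHom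
  have hc : ∀ g, IsIrr (c g) := by
    intro g
    refine ⟨hσ'.1, fun T hT => hσ'.2 T fun n v hv => ?_⟩
    have := hT ((MulAut.conjNormal g).symm n) v hv
    have h2 : c g ((MulAut.conjNormal g).symm n) = σ n := by
      change σ (MulAut.conjNormal g ((MulAut.conjNormal g).symm n)) = σ n
      rw [MulEquiv.apply_symm_apply]
    rwa [h2] at this
  -- the representation of `Γ`
  let ψ : V →ₗ[k] (W ⧸ U) := U.mkQ.comp π
  have hπs : Function.Surjective π := hπ.surjective hρ hπ0
  have hψs : Function.Surjective ψ := U.mkQ_surjective.comp hπs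
  have hψ : ∀ (n : N) (v : V), ψ (τ n v) = σ n (ψ v) := by
    intro n v
    have h1 : π (τ n v) = ρ (Subgroup.inclusion hNΔ n) (π v) := hπ (Subgroup.inclusion hNΔ n) v
    change U.mkQ (π (τ n v)) = σ n (U.mkQ (π v))
    rw [h1]
    rfl
  let φ : Γ → V →ₗ[k] (W ⧸ U) := fun g => ψ.comp (τ g)
  have hφ : ∀ g, IsMap (τ.comp N.subtype) (c g) (φ g) := by
    intro g n v
    change ψ (τ g (τ n v)) = σ (MulAut.conjNormal g n) (ψ (τ g v))
    rw [← hψ, ← Module.End.mul_apply, ← Module.End.mul_apply, ← map_mul, ← map_mul,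
      MulAut.conjNormal_apply]
    congr 3
    group
  let I : Finset Γ := Finset.univ.image fun q : Γ ⧸ N => q.out
  have hI : ∀ v, (∀ i ∈ I, φ i v = 0) → v = 0 := by
    intro v hv
    let K : Submodule k V := ⨅ g : Γ, LinearMap.ker (φ g)
    have hK : Stable τ K := by
      intro g w hw
      rw [Submodule.mem_iInf] at hw ⊢
      intro g'
      have := hw (g' * g)
      rw [LinearMap.mem_ker] at this ⊢
      change ψ (τ (g' * g) w) = 0 at this
      change ψ (τ g' (τ g w)) = 0
      rwa [map_mul, Module.End.mul_apply] at this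
    have hvK : v ∈ K := by
      rw [Submodule.mem_iInf]
      intro g
      rw [LinearMap.mem_ker]
      -- `g = n * out`
      let q : Γ ⧸ N := (g : Γ ⧸ N)
      have hq : φ q.out v = 0 := hv _ (Finset.mem_image_of_mem _ (Finset.mem_univ q))
      have hmem : q.out⁻¹ * g ∈ N := by
        rw [← QuotientGroup.eq, QuotientGroup.out_eq']
      have hmem' : g * q.out⁻¹ ∈ N := by
        have := (inferInstance : N.Normal).conj_mem _ hmem q.out
        simpa [mul_assoc] using this
      have h1 : g = (⟨g * q.out⁻¹, hmem'⟩ : N) * q.out := by simp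
      change ψ (τ g v) = 0
      rw [h1, map_mul, Module.End.mul_apply, hψ]
      change ψ (τ q.out v) = 0 at hq
      rw [hq, map_zero]
    rcases hτ.2 K hK with h | h
    · rw [h, Submodule.mem_bot] at hvK
      exact hvK
    · exfalso
      have h1 : K ≤ LinearMap.ker (φ 1) := iInf_le _ 1
      rw [h, top_le_iff, LinearMap.ker_eq_top] at h1
      have h2 : ψ = 0 := by
        have : φ 1 = ψ := by
          change ψ.comp (τ 1) = ψ
          rw [map_one]
          rfl
        rw [← this, h1]
      obtain ⟨x, hx⟩ := exists_ne (0 : W ⧸ U)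
      obtain ⟨v, rfl⟩ := hψs x
      rw [h2] at hx
      exact hx rfl
  obtain ⟨J, -, hJ, -⟩ := exists_det c hc I V (τ.comp N.subtype) φ (fun i _ => hφ i) hI
  -- the representation of `Δ`
  let N' : Subgroup Δ := N.subgroupOf Δ
  have : Fintype (Δ ⧸ N') := Fintype.ofFinite _
  let φ' : Γ → W →ₗ[k] (W ⧸ U) := fun g => if h : g ∈ Δ then U.mkQ.comp (ρ ⟨g, h⟩) else 0
  let I' : Finset Γ := Finset.univ.image fun q : Δ ⧸ N' => (q.out : Γ)
  have hφ'0 : ∀ d : Δ, φ' d = U.mkQ.comp (ρ d) := fun d => by
    simp only [φ', d.2, dite_true, Subtype.coe_eta]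
  have hφ' : ∀ i ∈ I', IsMap ρN (c i) (φ' i) := by
    intro i hi n v
    obtain ⟨q, -, rfl⟩ := Finset.mem_image.1 hi
    set d : Δ := q.out with hd
    rw [hφ'0 d]
    change U.mkQ (ρ d (ρ (Subgroup.inclusion hNΔ n) v)) =
      σ (MulAut.conjNormal (d : Γ) n) (U.mkQ (ρ d v))
    have h1 : σ (MulAut.conjNormal (d : Γ) n) (U.mkQ (ρ d v)) =
      U.mkQ (ρ (Subgroup.inclusion hNΔ (MulAut.conjNormal (d : Γ) n)) (ρ d v)) := rfl
    rw [h1, ← Module.End.mul_apply, ← Module.End.mul_apply, ← map_mul, ← map_mul]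
    congr 3
    ext
    simp [MulAut.conjNormal_apply]
  have hI' : ∀ v, (∀ i ∈ I', φ' i v = 0) → v = 0 := by
    intro v hv
    let K : Submodule k W := ⨅ d : Δ, LinearMap.ker (U.mkQ.comp (ρ d))
    have hK : Stable ρ K := by
      intro g w hw
      rw [Submodule.mem_iInf] at hw ⊢
      intro g'
      have := hw (g' * g)
      rw [LinearMap.mem_ker] at this ⊢
      change U.mkQ (ρ (g' * g) w) = 0 at this
      change U.mkQ (ρ g' (ρ g w)) = 0
      rwa [map_mul, Module.End.mul_apply] at this
    have hvK : v ∈ K := by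
      rw [Submodule.mem_iInf]
      intro g
      rw [LinearMap.mem_ker]
      let q : Δ ⧸ N' := (g : Δ ⧸ N')
      have hq : φ' (q.out : Δ) v = 0 := hv _ (Finset.mem_image_of_mem _ (Finset.mem_univ q))
      rw [hφ'0] at hq
      have hmem : q.out⁻¹ * g ∈ N' := by
        rw [← QuotientGroup.eq, QuotientGroup.out_eq']
      have hmem' : g * q.out⁻¹ ∈ N' := by
        have := (inferInstance : N'.Normal).conj_mem _ hmem q.out
        simpa [mul_assoc] using this
      have hmemN : ((g * q.out⁻¹ : Δ) : Γ) ∈ N := hmem'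
      have h1 : g = Subgroup.inclusion hNΔ ⟨_, hmemN⟩ * q.out := by
        ext
        simp
      change U.mkQ (ρ g v) = 0
      rw [h1, map_mul, Module.End.mul_apply]
      have h2 : U.mkQ (ρ (Subgroup.inclusion hNΔ ⟨_, hmemN⟩) (ρ q.out v)) =
        σ ⟨_, hmemN⟩ (U.mkQ (ρ q.out v)) := rfl
      rw [h2]
      change U.mkQ (ρ q.out v) = 0 at hq
      rw [hq, map_zero]
    rcases hρ.2 K hK with h | h
    · rw [h, Submodule.mem_bot] at hvK
      exact hvK
    · exfalso
      have h1 : K ≤ LinearMap.ker (U.mkQ.comp (ρ 1)) := iInf_le _ 1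
      rw [h, top_le_iff, LinearMap.ker_eq_top, map_one] at h1
      obtain ⟨x, hx⟩ := exists_ne (0 : W ⧸ U)
      obtain ⟨v, rfl⟩ := U.mkQ_surjective x
      have h2 : U.mkQ v = 0 := by
        have := LinearMap.congr_fun h1 v
        simpa using this
      exact hx h2
  obtain ⟨J', -, hJ', hcard⟩ := exists_det c hc I' W ρN φ' hφ' hI'
  have hJ'pos : 0 < J'.card := by
    rcases Nat.eq_zero_or_pos J'.card with h | h
    · rw [h, zero_mul] at hcard
      exact absurd hcard (Module.finrank_pos (R := k) (M := W)).ne'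
    · exact h
  obtain ⟨m, hm, hm1⟩ := hdet
  have hprod : ∀ (J : Finset Γ) (n : N),
      ∏ q : Γ ⧸ N, ∏ i ∈ J, LinearMap.det (c i (MulAut.conjNormal q.out n)) =
        transf N δ n ^ J.card := by
    intro J n
    rw [Finset.prod_comm]
    have h1 : ∀ i ∈ J, ∏ q : Γ ⧸ N, LinearMap.det (c i (MulAut.conjNormal q.out n)) =
        transf N δ n := by
      intro i _
      rw [← prod_conj N δ n i]
      refine Finset.prod_congr rfl fun q _ => ?_
      change LinearMap.det (σ (MulAut.conjNormal i (MulAut.conjNormal q.out n))) =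
        LinearMap.det (σ (MulAut.conjNormal (i * q.out) n))
      rw [map_mul MulAut.conjNormal i q.out]
      rfl
    rw [Finset.prod_congr rfl h1, Finset.prod_const]
  have hT : ∀ n : N, transf N δ n ^ (J'.card * m) = 1 := by
    intro n
    rw [pow_mul, ← hprod, ← Finset.prod_pow]
    refine Finset.prod_eq_one fun q _ => ?_
    rw [← hJ']
    exact hm1 _
  have hN : ∀ n : N, LinearMap.det (τ n) ^ (Fintype.card (Γ ⧸ N) * (J'.card * m)) = 1 := by
    intro n
    have h1 : LinearMap.det (τ n) ^ Fintype.card (Γ ⧸ N) = transf N δ n ^ J.card := by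
      rw [← hprod, ← Finset.card_univ, ← Finset.prod_const]
      refine Finset.prod_congr rfl fun q _ => ?_
      rw [← hJ]
      change LinearMap.det (τ n) = LinearMap.det (τ ((MulAut.conjNormal q.out n : N) : Γ))
      have hh : LinearMap.det (τ q.out) * LinearMap.det (τ q.out⁻¹) = 1 := by
        rw [← map_mul LinearMap.det, ← map_mul τ, mul_inv_cancel, map_one, map_one]
      rw [MulAut.conjNormal_apply, map_mul, map_mul, map_mul, map_mul,
        mul_comm (LinearMap.det (τ q.out)) (LinearMap.det (τ n)), mul_assoc, hh, mul_one]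
    rw [pow_mul, h1, ← pow_mul, mul_comm J.card, pow_mul, hT, one_pow]
  refine ⟨N.index * (Fintype.card (Γ ⧸ N) * (J'.card * m)), ?_, fun g => ?_⟩
  · have h1 : 0 < N.index := Nat.pos_of_ne_zero Subgroup.FiniteIndex.index_ne_zero
    have h2 : 0 < Fintype.card (Γ ⧸ N) := Fintype.card_pos
    positivity
  · have h1 : g ^ N.index ∈ N := Subgroup.pow_index_mem N g
    have h2 := hN ⟨_, h1⟩
    have h3 : LinearMap.det (τ g) ^ N.index = LinearMap.det (τ (g ^ N.index)) := by
      rw [map_pow, map_pow]
    rw [pow_mul, h3]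
    exact h2

end main

end Pool.Agent.X264.GO
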