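import Pool.Agent.X264.GO.Rel

/-!
# Products with the affine line
-/

set_option autoImplicit false

namespace Pool.Agent.X264.GO

namespace Sys

variable {k : Type} [Field k]

/-- the products `Y × A^1` with the projections `π_1(Y × A^1) → π_1(Y)` -/
structure Cylinders (S : Sys k) where
  /-- the product with the affine line -/
  cyl : S.Fld → S.Fld
  /-- the homomorphism of fundamental groups of the projection -/
  pr : ∀ Y, S.Gal (cyl Y) →* S.Gal Y

variable {S : Sys k}

/-- the inverse image on `Y × A^1` of a flat bundle on `Y` -/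
def Cylinders.pull (P : S.Cylinders) (Y : S.Fld) {V : Type} [AddCommGroup V] [Module k V]
    (ρ : S.Rep Y V) : S.Rep (P.cyl Y) V := MonoidHom.comp ρ (P.pr Y)

/-- **Hypothesis**: the projections are surjective on fundamental groups, inverse images of bundles
in `A` are in `A`, a bundle is in `C` if its inverse image is (restrict to `Y × {a}`), and products
of varieties in `B n` with the affine line are in `B (n + 1)` -/
def Cylinders.IsGood (P : S.Cylinders) (A C : S.Cls) (B : ℕ → S.Fld → Prop) : Prop :=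
  (∀ Y, Function.Surjective (P.pr Y)) ∧
  (∀ (Y : S.Fld) (V : Type) [AddCommGroup V] [Module k V] (ρ : S.Rep Y V),
    (A Y V ρ → A (P.cyl Y) V (P.pull Y ρ)) ∧ (C (P.cyl Y) V (P.pull Y ρ) → C Y V ρ)) ∧
  (∀ n Y, B n Y → B (n + 1) (P.cyl Y))

/-- each `Y` has a finite etale covering which (after shrinking) is a covering of a variety in some
`B n` -/
def IsCovered (S : Sys k) (B : ℕ → S.Fld → Prop) : Prop :=
  ∀ Y : S.Fld, ∃ (Y' U : S.Fld) (n : ℕ), B n U ∧ Nonempty (S.Ext Y Y') ∧ Nonempty (S.Ext U Y')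

theorem allIrr_of_cyl {P : S.Cylinders} {A C : S.Cls} {B : ℕ → S.Fld → Prop}
    (hP : P.IsGood A C B) {Y : S.Fld} (h : AllIrr A C (P.cyl Y)) : AllIrr A C Y := by
  intro V _ _ _ ρ hρ hAρ
  refine (hP.2.1 Y V ρ).2 (h V (P.pull Y ρ) ⟨hρ.1, fun T hT => hρ.2 T fun g v hv => ?_⟩
    ((hP.2.1 Y V ρ).1 hAρ))
  obtain ⟨g', rfl⟩ := hP.1 Y g
  exact hT g' v hv

theorem cylinders (hS : S.IsGalois) {A C : S.Cls} (hA : A.IsStable) (hC : C.IsStable)
    (hC' : C.Sums) {P : S.Cylinders} {B : ℕ → S.Fld → Prop} (hP : P.IsGood A C B)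
    (hB : IsCovered S B) (T : Set ℕ) (hT : T.Infinite) :
    (∀ Y, AllSemisimple A C Y) ↔ ∀ n ∈ T, ∀ U, B n U → AllIrr A C U := by
  simp only [allSemisimple_iff hA.1 hC']
  refine ⟨fun h n _ U _ => h U, fun h => ?_⟩
  have h1 : ∀ (m n : ℕ), n + m ∈ T → ∀ U, B n U → AllIrr A C U := by
    intro m
    induction m with
    | zero => intro n hn U hU; exact h n hn U hU
    | succ m ih =>
      intro n hn U hU
      refine allIrr_of_cyl hP (ih (n + 1) ?_ (P.cyl U) (hP.2.2 n U hU))
      have : n + 1 + m = n + (m + 1) := by ring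
      rwa [this]
  have h2 : ∀ n U, B n U → AllIrr A C U := by
    intro n U hU
    obtain ⟨t, ht, hnt⟩ := hT.exists_gt n
    exact h1 (t - n) n (by rwa [Nat.add_sub_cancel' hnt.le]) U hU
  refine allIrr_of_cofinal hS hA hC (fun U => ∃ n, B n U) (fun Y => ?_) fun U ⟨n, hU⟩ => h2 n U hU
  obtain ⟨Y', U, n, hU, h3, h4⟩ := hB Y
  exact ⟨Y', U, ⟨n, hU⟩, h3, h4⟩

/-- if this holds for the Lie-irreducible bundles on all coverings of `Y`, then for all semisimple
ones on `Y` -/
theorem semisimple_of_lie (hS : S.IsGalois) {A C : S.Cls} (hA : A.IsStable) (hC : C.IsStable)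
    (hC' : C.Sums) (Y : S.Fld) (h : ∀ Y', Nonempty (S.Ext Y Y') → AllLie A C Y') :
    AllSemisimple A C Y := by
  rw [allSemisimple_iff hA.1 hC']
  exact allIrr_of_lie hS hA.2.1 hA.2.2.1 hC.1 hC.2.2.2 h

end Sys

end Pool.Agent.X264.GO
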