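import Pool.Agent.X264.GO.Sys

/-!
# Reductions to small fields and to Lie-irreducible representations
-/

set_option autoImplicit false

namespace Pool.Agent.X264.GO

namespace Sys

variable {k : Type} [Field k] {S : Sys k}

/-- all irreducible representations of the Galois group of `K` with a determinant of finite order
which belong to `A` belong to `C` -/
def AllFiniteDet (A C : S.Cls) (K : S.Fld) : Prop :=
  ∀ (V : Type) [AddCommGroup V] [Module k V] [FiniteDimensional k V] (ρ : S.Rep K V),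
    IsIrr ρ → FiniteDet ρ → A K V ρ → C K V ρ

/-- all irreducible representations of the Galois group of `K` which belong to `A` belong to `C` -/
def AllIrr (A C : S.Cls) (K : S.Fld) : Prop :=
  ∀ (V : Type) [AddCommGroup V] [Module k V] [FiniteDimensional k V] (ρ : S.Rep K V),
    IsIrr ρ → A K V ρ → C K V ρ

/-- `ρ` is Lie-irreducible: its restrictions to all finite extensions are irreducible -/
def LieIrr {K : S.Fld} {V : Type} [AddCommGroup V] [Module k V] (ρ : S.Rep K V) : Prop :=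
  ∀ (L : S.Fld) (e : S.Ext K L), IsIrr (restr e ρ)

/-- the same for Lie-irreducible representations -/
def AllFiniteDetLie (A C : S.Cls) (K : S.Fld) : Prop :=
  ∀ (V : Type) [AddCommGroup V] [Module k V] [FiniteDimensional k V] (ρ : S.Rep K V),
    LieIrr ρ → FiniteDet ρ → A K V ρ → C K V ρ

/-- the same for Lie-irreducible representations -/
def AllLie (A C : S.Cls) (K : S.Fld) : Prop :=
  ∀ (V : Type) [AddCommGroup V] [Module k V] [FiniteDimensional k V] (ρ : S.Rep K V),
    LieIrr ρ → A K V ρ → C K V ρ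

/-- the twist of a representation by a character -/
def twist {K : S.Fld} {V : Type} [AddCommGroup V] [Module k V] (χ : S.Gal K →* k)
    (ρ : S.Rep K V) : S.Rep K V where
  toFun g := χ g • ρ g
  map_one' := by rw [map_one, map_one, one_smul]
  map_mul' g h := by rw [map_mul, map_mul, smul_mul_smul_comm]

/-- **Hypothesis**: each irreducible representation in `A` has a twist with a determinant of finite
order which is in `A`, and the representation is in `C` if its twist is -/
def HasTwists (A C : S.Cls) : Prop :=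
  ∀ (K : S.Fld) (V : Type) [AddCommGroup V] [Module k V] [FiniteDimensional k V] (ρ : S.Rep K V),
    IsIrr ρ → A K V ρ → ∃ χ : S.Gal K →* k, FiniteDet (twist χ ρ) ∧ A K V (twist χ ρ) ∧
      (C K V (twist χ ρ) → C K V ρ)

theorem twist_stable {K : S.Fld} {V : Type} [AddCommGroup V] [Module k V] (χ : S.Gal K →* k)
    (ρ : S.Rep K V) (U : Submodule k V) (hU : Stable (twist χ ρ) U) : Stable ρ U := by
  intro g v hv
  have h1 : χ g • ρ g v ∈ U := hU g v hv
  have h2 : χ g ≠ 0 := by
    intro h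
    have : χ (g * g⁻¹) = 0 := by rw [map_mul, h, zero_mul]
    rw [mul_inv_cancel, map_one] at this
    exact one_ne_zero this
  have := U.smul_mem (χ g)⁻¹ h1
  rwa [smul_smul, inv_mul_cancel₀ h2, one_smul] at this

theorem IsIrr_twist {K : S.Fld} {V : Type} [AddCommGroup V] [Module k V] (χ : S.Gal K →* k)
    (ρ : S.Rep K V) (h : IsIrr ρ) : IsIrr (twist χ ρ) :=
  ⟨h.1, fun U hU => h.2 U (twist_stable χ ρ U hU)⟩

theorem LieIrr.isIrr (hS : S.IsGalois) {K : S.Fld} {V : Type} [AddCommGroup V] [Module k V]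
    {ρ : S.Rep K V} (h : LieIrr ρ) : IsIrr ρ := by
  obtain ⟨e, he⟩ := hS.2.1 K
  have h1 := h K e
  have h2 : restr e ρ = ρ := by
    rw [restr, he]
    rfl
  rwa [h2] at h1

theorem LieIrr_twist {K : S.Fld} {V : Type} [AddCommGroup V] [Module k V] (χ : S.Gal K →* k)
    (ρ : S.Rep K V) (h : LieIrr ρ) : LieIrr (twist χ ρ) := by
  intro L e
  refine ⟨(h L e).1, fun U hU => (h L e).2 U ?_⟩
  exact twist_stable (χ.comp (S.res e)) (restr e ρ) U hU

/-- **reduction to a subfield** -/
theorem allIrr_of_ext (hS : S.IsGalois) {A C : S.Cls} (hA1 : A.Sub) (hA2 : A.Coind)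
    (hC1 : C.Quot) (hC2 : C.Res) {K L : S.Fld} (e : S.Ext K L) (h : AllIrr A C K) :
    AllIrr A C L := by
  intro W _ _ _ ρ hρ hAρ
  have := (hS.1 e).2
  obtain ⟨V, _, _, _, τ, i, π, hτ, hi, hi', hπ, hπ0⟩ := exists_irr_over e ρ (hS.1 e).1 (hS.1 e).2 hρ
  have h1 : A K V τ := hA1 K V _ τ (coind e ρ) i hi hi' (hA2 K L e W ρ hAρ)
  exact hC1 L V W (restr e τ) ρ π hπ (hπ.surjective hρ hπ0) (hC2 K L e V τ (h V τ hτ h1))

/-- **reduction to a subfield**, determinants of finite order -/
theorem allFiniteDet_of_ext (hS : S.IsGalois) {A C : S.Cls} (hA1 : A.Sub) (hA2 : A.Coind)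
    (hC1 : C.Quot) (hC2 : C.Res) {K L : S.Fld} (e : S.Ext K L) (h : AllFiniteDet A C K) :
    AllFiniteDet A C L := by
  intro W _ _ _ ρ hρ hdet hAρ
  have := (hS.1 e).2
  obtain ⟨V, _, _, _, τ, i, π, hτ, hi, hi', hπ, hπ0⟩ := exists_irr_over e ρ (hS.1 e).1 (hS.1 e).2 hρ
  have h1 : A K V τ := hA1 K V _ τ (coind e ρ) i hi hi' (hA2 K L e W ρ hAρ)
  -- the determinant of `τ` has finite order
  let E : S.Gal L ≃* (S.res e).range := MonoidHom.ofInjective (hS.1 e).1
  let ρ' : Representation k (S.res e).range W := MonoidHom.comp ρ E.symm.toMonoidHom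
  have hE : ∀ d : (S.res e).range, S.res e (E.symm d) = d := by
    intro d
    obtain ⟨x, rfl⟩ := E.surjective d
    rw [MulEquiv.symm_apply_apply]
    rfl
  have hρ' : IsIrr ρ' := by
    refine ⟨hρ.1, fun U hU => hρ.2 U fun g v hv => ?_⟩
    have h3 := hU (E g) v hv
    have h4 : ρ' (E g) = ρ g := by
      change ρ (E.symm (E g)) = ρ g
      rw [MulEquiv.symm_apply_apply]
    rwa [h4] at h3
  have hdet' : FiniteDet ρ' := by
    obtain ⟨m, hm, hm'⟩ := hdet
    exact ⟨m, hm, fun g => hm' _⟩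
  have hπ' : IsMap (MonoidHom.comp τ (S.res e).range.subtype) ρ' π := by
    intro d v
    have h3 := hπ (E.symm d) v
    change π (τ (S.res e (E.symm d)) v) = ρ (E.symm d) (π v) at h3
    rw [hE] at h3
    exact h3
  have h2 : FiniteDet τ := finiteDet_of_quotient (S.res e).range τ hτ ρ' hρ' hdet' π hπ' hπ0
  exact hC1 L V W (restr e τ) ρ π hπ (hπ.surjective hρ hπ0) (hC2 K L e V τ (h V τ hτ h2 h1))

/-- a representation belongs to `C` if a quotient of the restriction to a finite extension does -/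
theorem mem_of_quotient {C : S.Cls} (hC1 : C.Sub) (hC2 : C.Coind) {K L : S.Fld} (e : S.Ext K L)
    {V W : Type} [AddCommGroup V] [Module k V] [AddCommGroup W] [Module k W] (τ : S.Rep K V)
    (hτ : IsIrr τ) (ρ : S.Rep L W) (π : V →ₗ[k] W) (hπ : IsMap (restr e τ) ρ π) (hπ0 : π ≠ 0)
    (h : C L W ρ) : C K V τ := by
  refine hC1 K V _ τ (coind e ρ) (toCoind e ρ τ π hπ) (isMap_toCoind e ρ τ π hπ) ?_
    (hC2 K L e W ρ h)
  refine (isMap_toCoind e ρ τ π hπ).injective hτ fun h0 => hπ0 ?_
  ext v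
  have h1 : (toCoind e ρ τ π hπ v).1 1 = 0 := by rw [h0]; rfl
  rw [toCoind_apply, map_one] at h1
  exact h1

/-- a representation belongs to `C` if and only if its restriction to a finite extension does -/
theorem mem_iff_restr {C : S.Cls} (hC1 : C.Sub) (hC2 : C.Coind) (hC3 : C.Res) {K L : S.Fld}
    (e : S.Ext K L) {V : Type} [AddCommGroup V] [Module k V] (τ : S.Rep K V) :
    C K V τ ↔ C L V (restr e τ) := by
  refine ⟨hC3 K L e V τ, fun h => ?_⟩
  have hπ : IsMap (restr e τ) (restr e τ) (LinearMap.id : V →ₗ[k] V) := fun _ _ => rfl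
  refine hC1 K V _ τ (coind e (restr e τ)) (toCoind e (restr e τ) τ LinearMap.id hπ)
    (isMap_toCoind e _ τ _ hπ) (fun v w hvw => ?_) (hC2 K L e V _ h)
  have h1 : (toCoind e (restr e τ) τ LinearMap.id hπ v).1 1 =
    (toCoind e (restr e τ) τ LinearMap.id hπ w).1 1 := by rw [hvw]
  rw [toCoind_apply, toCoind_apply, map_one] at h1
  exact h1

/-- the restriction of an irreducible representation to some finite extension has a Lie-irreducible
quotient -/
theorem exists_lieIrr (hS : S.IsGalois) {K : S.Fld} {V : Type} [AddCommGroup V] [Module k V]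
    [FiniteDimensional k V] (τ : S.Rep K V) (hτ : IsIrr τ) :
    ∃ (L : S.Fld) (e : S.Ext K L) (W : Type) (_ : AddCommGroup W) (_ : Module k W)
      (_ : FiniteDimensional k W) (σ : S.Rep L W) (π : V →ₗ[k] W),
      IsMap (restr e τ) σ π ∧ π ≠ 0 ∧ LieIrr σ := by
  classical
  let P : ℕ → Prop := fun d => ∃ (L : S.Fld) (e : S.Ext K L) (W : Type) (_ : AddCommGroup W)
    (_ : Module k W) (_ : FiniteDimensional k W) (σ : S.Rep L W) (π : V →ₗ[k] W),
      IsMap (restr e τ) σ π ∧ π ≠ 0 ∧ IsIrr σ ∧ Module.finrank k W = d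
  have hP : ∃ d, P d := by
    obtain ⟨e, he⟩ := hS.2.1 K
    refine ⟨_, K, e, V, inferInstance, inferInstance, inferInstance, restr e τ, LinearMap.id,
      fun _ _ => rfl, fun h => ?_, ?_, rfl⟩
    · have := hτ.1
      obtain ⟨v, hv⟩ := exists_ne (0 : V)
      exact hv (LinearMap.congr_fun h v)
    · have h2 : restr e τ = τ := by
        rw [restr, he]
        rfl
      rwa [h2]
  obtain ⟨L, e, W, _, _, _, σ, π, h1, h2, h3, h4⟩ := Nat.find_spec hP
  refine ⟨L, e, W, inferInstance, inferInstance, inferInstance, σ, π, h1, h2, ?_⟩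
  intro M e'
  have := h3.1
  obtain ⟨U, hU, hirr⟩ := exists_irr_quotient (restr e' σ)
  obtain ⟨e'', he''⟩ := hS.2.2 e e'
  have hπs := h1.surjective h3 h2
  have hP' : P (Module.finrank k (W ⧸ U)) := by
    refine ⟨M, e'', W ⧸ U, inferInstance, inferInstance, inferInstance, quotRep (restr e' σ) U hU,
      U.mkQ.comp π, fun g v => ?_, fun h0 => ?_, hirr, rfl⟩
    · have h5 : restr e'' τ g = restr e τ (S.res e' g) := by
        change τ (S.res e'' g) = τ (S.res e (S.res e' g))
        rw [he'']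
        rfl
      rw [h5]
      change U.mkQ (π (restr e τ (S.res e' g) v)) = _
      rw [h1]
      rfl
    · have := hirr.1
      obtain ⟨x, hx⟩ := exists_ne (0 : W ⧸ U)
      obtain ⟨w, rfl⟩ := U.mkQ_surjective x
      obtain ⟨v, rfl⟩ := hπs w
      exact hx (LinearMap.congr_fun h0 v)
  have hmin := Nat.find_min' hP hP'
  rw [← h4] at hmin
  have h6 := Submodule.finrank_quotient_add_finrank U
  have hU0 : U = ⊥ := by
    rw [← Submodule.finrank_eq_zero (R := k)]
    omega
  -- the restriction is isomorphic to its quotient by zero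
  refine ⟨h3.1, fun T hT => ?_⟩
  have hT' : Stable (quotRep (restr e' σ) U hU) (T.map U.mkQ) := by
    rintro g _ ⟨w, hw, rfl⟩
    exact ⟨restr e' σ g w, hT g w hw, rfl⟩
  rcases hirr.2 _ hT' with h | h
  · left
    rw [eq_bot_iff]
    intro w hw
    have h7 : U.mkQ w ∈ T.map U.mkQ := ⟨w, hw, rfl⟩
    rw [h, Submodule.mem_bot] at h7
    have h8 : w ∈ U := (Submodule.Quotient.mk_eq_zero U).1 h7
    rwa [hU0] at h8
  · right
    rw [eq_top_iff]
    intro w _
    have h7 : U.mkQ w ∈ T.map U.mkQ := by rw [h]; trivial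
    obtain ⟨w', hw', hww⟩ := h7
    have h8 : w' - w ∈ U := by
      rw [← Submodule.Quotient.mk_eq_zero U]
      change U.mkQ (w' - w) = 0
      rw [map_sub, hww, sub_self]
    rw [hU0, Submodule.mem_bot, sub_eq_zero] at h8
    rwa [← h8]

/-- **reduction to Lie-irreducible representations** -/
theorem allFiniteDet_of_lie (hS : S.IsGalois) {A C : S.Cls} (hA1 : A.Quot) (hA2 : A.Res)
    (hC1 : C.Sub) (hC2 : C.Coind) (htw : HasTwists A C) {K : S.Fld}
    (h : ∀ L, Nonempty (S.Ext K L) → AllFiniteDetLie A C L) : AllFiniteDet A C K := by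
  intro V _ _ _ τ hτ _ hAτ
  obtain ⟨L, e, W, _, _, _, σ, π, h1, h2, h3⟩ := exists_lieIrr hS τ hτ
  have h4 : A L W σ := hA1 L V W (restr e τ) σ π h1 (h1.surjective (h3.isIrr hS) h2)
    (hA2 K L e V τ hAτ)
  obtain ⟨χ, h5, h6, h7⟩ := htw L W σ (h3.isIrr hS) h4
  exact mem_of_quotient hC1 hC2 e τ hτ σ π h1 h2
    (h7 (h L ⟨e⟩ W (twist χ σ) (LieIrr_twist χ σ h3) h5 h6))

/-- **reduction to Lie-irreducible representations** -/
theorem allIrr_of_lie (hS : S.IsGalois) {A C : S.Cls} (hA1 : A.Quot) (hA2 : A.Res)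
    (hC1 : C.Sub) (hC2 : C.Coind) {K : S.Fld}
    (h : ∀ L, Nonempty (S.Ext K L) → AllLie A C L) : AllIrr A C K := by
  intro V _ _ _ τ hτ hAτ
  obtain ⟨L, e, W, _, _, _, σ, π, h1, h2, h3⟩ := exists_lieIrr hS τ hτ
  have h4 : A L W σ := hA1 L V W (restr e τ) σ π h1 (h1.surjective (h3.isIrr hS) h2)
    (hA2 K L e V τ hAτ)
  exact mem_of_quotient hC1 hC2 e τ hτ σ π h1 h2 (h L ⟨e⟩ W σ h3 h4)

end Sys

end Pool.Agent.X264.GO
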