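import Pool.Agent.X264.GO.Ss

/-!
# Arithmetic and geometric representations: reduction to commensurable base fields
-/

set_option autoImplicit false

namespace Pool.Agent.X264.GO

namespace Sys

variable {k : Type} [Field k] {S : Sys k}

/-- each field has a finite extension which is also a finite extension of a field with the
property `B` -/
def IsCofinal (S : Sys k) (B : S.Fld → Prop) : Prop :=
  ∀ L : S.Fld, ∃ M K : S.Fld, B K ∧ Nonempty (S.Ext L M) ∧ Nonempty (S.Ext K M)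

theorem allIrr_of_cofinal (hS : S.IsGalois) {A C : S.Cls} (hA : A.IsStable) (hC : C.IsStable)
    (B : S.Fld → Prop) (hB : IsCofinal S B) (h : ∀ K, B K → AllIrr A C K) (L : S.Fld) :
    AllIrr A C L := by
  obtain ⟨a1, a2, a3, a4⟩ := hA
  obtain ⟨c1, c2, c3, c4⟩ := hC
  obtain ⟨M, K, hK, ⟨e⟩, ⟨e'⟩⟩ := hB L
  have hM : AllIrr A C M := allIrr_of_ext hS a1 a4 c2 c3 e' (h K hK)
  intro V _ _ _ ρ hρ hAρ
  have := hρ.1
  obtain ⟨U, hU, hirr⟩ := exists_irr_quotient (restr e ρ)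
  have h1 : A M V (restr e ρ) := a3 L M e V ρ hAρ
  have h2 : A M (V ⧸ U) (quotRep (restr e ρ) U hU) :=
    a2 M V (V ⧸ U) (restr e ρ) _ U.mkQ (isMap_mkQ _ U hU) U.mkQ_surjective h1
  refine mem_of_quotient c1 c4 e ρ hρ (quotRep (restr e ρ) U hU) U.mkQ (isMap_mkQ _ U hU) ?_
    (hM (V ⧸ U) (quotRep (restr e ρ) U hU) hirr h2)
  intro h0
  have := hirr.1
  obtain ⟨x, hx⟩ := exists_ne (0 : V ⧸ U)
  obtain ⟨v, rfl⟩ := U.mkQ_surjective x
  exact hx (LinearMap.congr_fun h0 v)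

theorem relative (hS : S.IsGalois) {A C : S.Cls} (hA : A.IsStable) (hC : C.IsStable)
    (hC' : C.Sums) (B : S.Fld → Prop) (hB : IsCofinal S B) :
    ((∀ K, AllSemisimple A C K) ↔ ∀ K, B K → AllIrr A C K) ∧
    ((∀ K, AllSemisimple A C K) ↔ ∀ K, AllLie A C K) := by
  have hA0 := hA
  have hC0 := hC
  obtain ⟨a1, a2, a3, a4⟩ := hA
  obtain ⟨c1, c2, c3, c4⟩ := hC
  simp only [allSemisimple_iff a1 hC']
  exact ⟨⟨fun h K _ => h K, fun h => allIrr_of_cofinal hS hA0 hC0 B hB h⟩,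
    ⟨fun h K V _ _ _ ρ hρ hAρ => h K V ρ (hρ.isIrr hS) hAρ,
      fun h K => allIrr_of_lie hS a2 a3 c1 c4 fun L _ => h L⟩⟩

end Sys

end Pool.Agent.X264.GO
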