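import Mathlib

/-!
# Irreducible representations, quotients, coinduction and determinants
-/

set_option autoImplicit false

namespace Pool.Agent.X264.GO

section basic

variable {k : Type} [Field k] {G : Type} [Group G]
variable {V : Type} [AddCommGroup V] [Module k V] {W : Type} [AddCommGroup W] [Module k W]

/-- the subspace `U` is stable under `G` -/
def Stable (ρ : Representation k G V) (U : Submodule k V) : Prop := ∀ g : G, ∀ v ∈ U, ρ g v ∈ U

/-- `f` is a `G`-linear map -/
def IsMap (ρ : Representation k G V) (σ : Representation k G W) (f : V →ₗ[k] W) : Prop :=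
  ∀ (g : G) (v : V), f (ρ g v) = σ g (f v)

/-- `ρ` is irreducible -/
def IsIrr (ρ : Representation k G V) : Prop :=
  Nontrivial V ∧ ∀ U : Submodule k V, Stable ρ U → U = ⊥ ∨ U = ⊤

/-- the determinant of `ρ` has finite order -/
def FiniteDet (ρ : Representation k G V) : Prop :=
  ∃ m : ℕ, 0 < m ∧ ∀ g : G, LinearMap.det (ρ g) ^ m = 1

/-- the representation on a stable subspace -/
def subRep (ρ : Representation k G V) (U : Submodule k V) (hU : Stable ρ U) :
    Representation k G U where
  toFun g := (ρ g).restrict (hU g)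
  map_one' := by ext v; simp
  map_mul' g h := by ext v; simp

/-- the representation on the quotient by a stable subspace -/
def quotRep (ρ : Representation k G V) (U : Submodule k V) (hU : Stable ρ U) :
    Representation k G (V ⧸ U) where
  toFun g := U.mapQ U (ρ g) (hU g)
  map_one' := by ext v; simp
  map_mul' g h := by ext v; simp

theorem isMap_mkQ (ρ : Representation k G V) (U : Submodule k V) (hU : Stable ρ U) :
    IsMap ρ (quotRep ρ U hU) U.mkQ := fun _ _ => rfl

theorem isMap_subtype (ρ : Representation k G V) (U : Submodule k V) (hU : Stable ρ U) :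
    IsMap (subRep ρ U hU) ρ U.subtype := fun _ _ => rfl

theorem IsMap.ker {ρ : Representation k G V} {σ : Representation k G W} {f : V →ₗ[k] W}
    (hf : IsMap ρ σ f) : Stable ρ (LinearMap.ker f) := fun g v hv => by
  rw [LinearMap.mem_ker] at hv ⊢
  rw [hf, hv, map_zero]

theorem IsMap.range {ρ : Representation k G V} {σ : Representation k G W} {f : V →ₗ[k] W}
    (hf : IsMap ρ σ f) : Stable σ (LinearMap.range f) := by
  rintro g _ ⟨v, rfl⟩
  exact ⟨ρ g v, hf g v⟩

theorem IsMap.surjective {ρ : Representation k G V} {σ : Representation k G W} {f : V →ₗ[k] W}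
    (hf : IsMap ρ σ f) (hσ : IsIrr σ) (h0 : f ≠ 0) : Function.Surjective f := by
  rcases hσ.2 _ hf.range with h | h
  · exact absurd (LinearMap.range_eq_bot.1 h) h0
  · exact LinearMap.range_eq_top.1 h

theorem IsMap.injective {ρ : Representation k G V} {σ : Representation k G W} {f : V →ₗ[k] W}
    (hf : IsMap ρ σ f) (hρ : IsIrr ρ) (h0 : f ≠ 0) : Function.Injective f := by
  rcases hρ.2 _ hf.ker with h | h
  · exact LinearMap.ker_eq_bot.1 h
  · exact absurd (LinearMap.ker_eq_top.1 h) h0

/-- existence of irreducible quotients -/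
theorem exists_irr_quotient [FiniteDimensional k V] [Nontrivial V] (ρ : Representation k G V) :
    ∃ (U : Submodule k V) (hU : Stable ρ U), IsIrr (quotRep ρ U hU) := by
  have hne : ({U : Submodule k V | Stable ρ U ∧ U ≠ ⊤}).Nonempty :=
    ⟨⊥, fun g v hv => by rw [Submodule.mem_bot] at hv ⊢; rw [hv, map_zero], bot_ne_top⟩
  obtain ⟨U, ⟨hU, hU1⟩, hmax⟩ :=
    WellFounded.has_min (wellFounded_gt : WellFounded ((· > ·) : Submodule k V → _ → Prop)) _ hne
  refine ⟨U, hU, ?_, ?_⟩
  · exact Submodule.Quotient.nontrivial_iff.2 hU1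
  · intro T hT
    by_cases h : T.comap U.mkQ = ⊤
    · right
      rw [eq_top_iff]
      intro x _
      obtain ⟨v, rfl⟩ := U.mkQ_surjective x
      have : v ∈ T.comap U.mkQ := by rw [h]; trivial
      exact this
    · left
      have h1 : Stable ρ (T.comap U.mkQ) := fun g v hv => hT g _ hv
      have h2 : U ≤ T.comap U.mkQ := by
        intro v hv
        rw [Submodule.mem_comap, Submodule.mkQ_apply, (Submodule.Quotient.mk_eq_zero U).2 hv]
        exact T.zero_mem
      have h3 : U = T.comap U.mkQ := by
        by_contra hc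
        exact hmax _ ⟨h1, h⟩ (lt_of_le_of_ne h2 hc)
      rw [eq_bot_iff]
      intro x hx
      obtain ⟨v, rfl⟩ := U.mkQ_surjective x
      have h4 : v ∈ T.comap U.mkQ := hx
      rw [← h3] at h4
      exact (Submodule.Quotient.mk_eq_zero U).2 h4

/-- existence of irreducible subrepresentations -/
theorem exists_irr_sub [FiniteDimensional k V] [Nontrivial V] (ρ : Representation k G V) :
    ∃ (U : Submodule k V) (hU : Stable ρ U), IsIrr (subRep ρ U hU) := by
  have hne : ({U : Submodule k V | Stable ρ U ∧ U ≠ ⊥}).Nonempty :=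
    ⟨⊤, fun g v _ => trivial, top_ne_bot⟩
  obtain ⟨U, ⟨hU, hU1⟩, hmin⟩ :=
    WellFounded.has_min (wellFounded_lt : WellFounded ((· < ·) : Submodule k V → _ → Prop)) _ hne
  refine ⟨U, hU, ?_, ?_⟩
  · exact (Submodule.nontrivial_iff_ne_bot).2 hU1
  · intro T hT
    have h1 : Stable ρ (T.map U.subtype) := by
      rintro g _ ⟨v, hv, rfl⟩
      exact ⟨subRep ρ U hU g v, hT g v hv, rfl⟩
    have h2 : T.map U.subtype ≤ U := Submodule.map_subtype_le U T
    by_cases h : T.map U.subtype = ⊥
    · left
      rw [eq_bot_iff]
      intro x hx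
      have h3 : U.subtype x ∈ T.map U.subtype := ⟨x, hx, rfl⟩
      rw [h, Submodule.mem_bot] at h3
      rw [Submodule.mem_bot]
      exact Subtype.ext h3
    · right
      have h3 : T.map U.subtype = U := by
        by_contra hc
        exact hmin _ ⟨h1, h⟩ (lt_of_le_of_ne h2 hc)
      rw [eq_top_iff]
      intro x _
      have h4 : (x : V) ∈ T.map U.subtype := by rw [h3]; exact x.2
      obtain ⟨y, hy, hyx⟩ := h4
      rwa [← Subtype.ext hyx]

end basic

section det

variable {k : Type} [Field k] {N : Type} [Group N] {ι : Type} [DecidableEq ι]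
variable {S : Type} [AddCommGroup S] [Module k S]

/-- determinants of representations which embed into a product of irreducible ones -/
theorem exists_det (σ : ι → Representation k N S) (hσ : ∀ i, IsIrr (σ i)) (I : Finset ι) :
    ∀ (V : Type) [AddCommGroup V] [Module k V] [FiniteDimensional k V]
      (τ : Representation k N V) (φ : ι → V →ₗ[k] S), (∀ i ∈ I, IsMap τ (σ i) (φ i)) →
      (∀ v, (∀ i ∈ I, φ i v = 0) → v = 0) →
      ∃ J ⊆ I, (∀ n, LinearMap.det (τ n) = ∏ i ∈ J, LinearMap.det (σ i n)) ∧
        Module.finrank k V = J.card * Module.finrank k S := by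
  induction I using Finset.induction_on with
  | empty =>
    intro V _ _ _ τ φ _ h
    have hs : Subsingleton V := ⟨fun x y => by
      rw [h x (by simp), h y (by simp)]⟩
    refine ⟨∅, by simp, fun n => ?_, ?_⟩
    · rw [Finset.prod_empty]
      exact LinearMap.det_eq_one_of_subsingleton _
    · rw [Finset.card_empty, zero_mul]
      exact Module.finrank_zero_of_subsingleton
  | insert a I ha ih =>
    intro V _ _ _ τ φ hφ h
    have hm : IsMap τ (σ a) (φ a) := hφ a (Finset.mem_insert_self a I)
    by_cases h0 : φ a = 0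
    · obtain ⟨J, hJ, h1, h2⟩ := ih V τ φ (fun i hi => hφ i (Finset.mem_insert_of_mem hi))
        (fun v hv => h v fun i hi => by
          rcases Finset.mem_insert.1 hi with rfl | hi
          · rw [h0]; rfl
          · exact hv i hi)
      exact ⟨J, hJ.trans (Finset.subset_insert a I), h1, h2⟩
    · have hsurj := hm.surjective (hσ a) h0
      let K := LinearMap.ker (φ a)
      have hK : Stable τ K := hm.ker
      obtain ⟨J, hJ, h1, h2⟩ := ih K (subRep τ K hK) (fun i => (φ i).comp K.subtype)
        (fun i hi g v => hφ i (Finset.mem_insert_of_mem hi) g v)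
        (fun v hv => Subtype.ext (h v fun i hi => by
          rcases Finset.mem_insert.1 hi with rfl | hi
          · exact v.2
          · exact hv i hi))
      have haJ : a ∉ J := fun h => ha (hJ h)
      let e : (V ⧸ K) ≃ₗ[k] S := (φ a).quotKerEquivOfSurjective hsurj
      refine ⟨insert a J, Finset.insert_subset_insert a hJ, fun n => ?_, ?_⟩
      · have he : K ≤ K.comap (τ n) := hK n
        rw [Finset.prod_insert haJ, ← h1, LinearMap.det_eq_det_mul_det K (τ n) he, mul_comm]
        have h3 : (e : (V ⧸ K) →ₗ[k] S) ∘ₗ (K.mapQ K (τ n) he) ∘ₗ (e.symm : S →ₗ[k] (V ⧸ K)) =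
            σ a n := by
          ext s
          obtain ⟨v, rfl⟩ := hsurj s
          have h4 : e.symm (φ a v) = K.mkQ v := by
            rw [LinearEquiv.symm_apply_eq]
            rfl
          rw [LinearMap.comp_apply, LinearMap.comp_apply, LinearEquiv.coe_coe, LinearEquiv.coe_coe,
            h4]
          exact hm n v
        rw [← h3, LinearMap.det_conj]
        rfl
      · rw [Finset.card_insert_of_notMem haJ, add_mul, one_mul, ← h2,
          ← Submodule.finrank_quotient_add_finrank K, e.finrank_eq, add_comm]

end det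

end Pool.Agent.X264.GO
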