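import Pool.Agent.X264.GO.Main

/-!
# Semisimple representations and the equivalences
-/

set_option autoImplicit false

namespace Pool.Agent.X264.GO

namespace Sys

variable {k : Type} [Field k] {S : Sys k}

/-- `ρ` is semisimple: each stable subspace has a stable complement -/
def IsSemisimple {K : S.Fld} {V : Type} [AddCommGroup V] [Module k V] (ρ : S.Rep K V) : Prop :=
  ∀ U : Submodule k V, Stable ρ U → ∃ U' : Submodule k V, Stable ρ U' ∧ IsCompl U U'

/-- `C` contains the representations on the zero space and each representation on a direct sum of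
two stable subspaces such that the representations on them are in `C` -/
def Cls.Sums (C : S.Cls) : Prop :=
  ∀ (K : S.Fld) (V : Type) [AddCommGroup V] [Module k V] (ρ : S.Rep K V),
    (Subsingleton V → C K V ρ) ∧
    ∀ (U U' : Submodule k V) (hU : Stable ρ U) (hU' : Stable ρ U'), IsCompl U U' →
      C K U (subRep ρ U hU) → C K U' (subRep ρ U' hU') → C K V ρ

/-- all semisimple representations of the Galois group of `K` in `A` are in `C` -/
def AllSemisimple (A C : S.Cls) (K : S.Fld) : Prop :=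
  ∀ (V : Type) [AddCommGroup V] [Module k V] [FiniteDimensional k V] (ρ : S.Rep K V),
    IsSemisimple ρ → A K V ρ → C K V ρ

theorem IsSemisimple.of_irr {K : S.Fld} {V : Type} [AddCommGroup V] [Module k V]
    {ρ : S.Rep K V} (h : IsIrr ρ) : IsSemisimple ρ := by
  intro U hU
  rcases h.2 U hU with rfl | rfl
  · exact ⟨⊤, fun _ _ _ => trivial, isCompl_bot_top⟩
  · exact ⟨⊥, fun g v hv => by rw [Submodule.mem_bot] at hv ⊢; rw [hv, map_zero],
      isCompl_top_bot⟩

theorem IsSemisimple.sub {K : S.Fld} {V : Type} [AddCommGroup V] [Module k V]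
    {ρ : S.Rep K V} (h : IsSemisimple ρ) (U : Submodule k V) (hU : Stable ρ U) :
    IsSemisimple (S := S) (K := K) (subRep ρ U hU) := by
  intro T hT
  have h1 : Stable ρ (T.map U.subtype) := by
    rintro g _ ⟨v, hv, rfl⟩
    exact ⟨subRep ρ U hU g v, hT g v hv, rfl⟩
  obtain ⟨T', hT', hc⟩ := h _ h1
  refine ⟨T'.comap U.subtype, fun g v hv => hT' g v.1 hv, ?_, ?_⟩
  · rw [Submodule.disjoint_def]
    intro x hx hx'
    have := Submodule.disjoint_def.1 hc.1 x.1 ⟨x, hx, rfl⟩ hx'
    exact Subtype.ext this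
  · rw [codisjoint_iff, Submodule.eq_top_iff']
    intro x
    have h2 : (x : V) ∈ T.map U.subtype ⊔ T' := by
      rw [codisjoint_iff.1 hc.2]; trivial
    obtain ⟨_, ⟨y, hy, rfl⟩, z, hz, hyz⟩ := Submodule.mem_sup.1 h2
    have hzU : z ∈ U := by
      have : z = x.1 - y.1 := by rw [← hyz]; simp
      rw [this]
      exact U.sub_mem x.2 y.2
    refine Submodule.mem_sup.2 ⟨y, hy, ⟨z, hzU⟩, hz, ?_⟩
    exact Subtype.ext hyz

theorem allSemisimple_iff {A C : S.Cls} (hA : A.Sub) (hC : C.Sums) (K : S.Fld) :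
    AllSemisimple A C K ↔ AllIrr A C K := by
  refine ⟨fun h V _ _ _ ρ hρ hA => h V ρ (IsSemisimple.of_irr hρ) hA, fun h => ?_⟩
  have main : ∀ (d : ℕ) (V : Type) [AddCommGroup V] [Module k V] [FiniteDimensional k V]
      (ρ : S.Rep K V), Module.finrank k V = d → IsSemisimple ρ → A K V ρ → C K V ρ := by
    intro d
    induction d using Nat.strong_induction_on with
    | _ d ih =>
      intro V _ _ _ ρ hd hss hAρ
      rcases subsingleton_or_nontrivial V with hsub | hnt
      · exact (hC K V ρ).1 hsub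
      · obtain ⟨U, hU, hirr⟩ := exists_irr_sub ρ
        obtain ⟨U', hU', hc⟩ := hss U hU
        refine (hC K V ρ).2 U U' hU hU' hc ?_ ?_
        · exact h U (subRep ρ U hU) hirr
            (hA K U V _ ρ U.subtype (isMap_subtype ρ U hU) U.injective_subtype hAρ)
        · have h1 := Submodule.finrank_add_eq_of_isCompl hc
          have h2 : 0 < Module.finrank k U := by
            have := hirr.1
            exact Module.finrank_pos
          exact ih (Module.finrank k U') (by omega) U' (subRep ρ U' hU') rfl (hss.sub U' hU')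
            (hA K U' V _ ρ U'.subtype (isMap_subtype ρ U' hU') U'.injective_subtype hAρ)
  exact fun V _ _ _ ρ hss hAρ => main _ V ρ rfl hss hAρ

/-- each irreducible representation with a determinant of finite order is a quotient of the
restriction of one with the same property -/
theorem exists_finiteDet_over (hS : S.IsGalois) {K L : S.Fld} (e : S.Ext K L) {W : Type}
    [AddCommGroup W] [Module k W] [FiniteDimensional k W] (ρ : S.Rep L W) (hρ : IsIrr ρ)
    (hdet : FiniteDet ρ) :
    ∃ (V : Type) (_ : AddCommGroup V) (_ : Module k V) (_ : FiniteDimensional k V)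
      (τ : S.Rep K V) (π : V →ₗ[k] W), IsIrr τ ∧ FiniteDet τ ∧ IsMap (restr e τ) ρ π ∧
        Function.Surjective π := by
  have := (hS.1 e).2
  obtain ⟨V, _, _, _, τ, i, π, hτ, hi, hi', hπ, hπ0⟩ := exists_irr_over e ρ (hS.1 e).1 (hS.1 e).2 hρ
  let E : S.Gal L ≃* (S.res e).range := MonoidHom.ofInjective (hS.1 e).1
  let ρ' : Representation k (S.res e).range W := MonoidHom.comp ρ E.symm.toMonoidHom
  have hE : ∀ d : (S.res e).range, S.res e (E.symm d) = d := by
    intro d
    obtain ⟨x, rfl⟩ := E.surjective d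
    rw [MulEquiv.symm_apply_apply]
    rfl
  have hρ' : IsIrr ρ' := by
    refine ⟨hρ.1, fun U hU => hρ.2 U fun g v hv => ?_⟩
    have h3 := hU (E g) v hv
    have h4 : ρ' (E g) = ρ g := by
      change ρ (E.symm (E g)) = ρ g
      rw [MulEquiv.symm_apply_apply]
    rwa [h4] at h3
  have hdet' : FiniteDet ρ' := by
    obtain ⟨m, hm, hm'⟩ := hdet
    exact ⟨m, hm, fun g => hm' _⟩
  have hπ' : IsMap (MonoidHom.comp τ (S.res e).range.subtype) ρ' π := by
    intro d v
    have h3 := hπ (E.symm d) v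
    change π (τ (S.res e (E.symm d)) v) = ρ (E.symm d) (π v) at h3
    rw [hE] at h3
    exact h3
  exact ⟨V, inferInstance, inferInstance, inferInstance, τ, π, hτ,
    finiteDet_of_quotient (S.res e).range τ hτ ρ' hρ' hdet' π hπ' hπ0, hπ,
    hπ.surjective hρ hπ0⟩

/-- each field is a finite separable extension of a field with the property `B` -/
def IsBase (S : Sys k) (B : S.Fld → Prop) : Prop :=
  ∀ L : S.Fld, ∃ K : S.Fld, B K ∧ Nonempty (S.Ext K L)

/-- **Hypothesis**: the class is closed under subrepresentations, quotients, restriction to finite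
extensions and coinduction from finite extensions -/
def Cls.IsStable (C : S.Cls) : Prop := C.Sub ∧ C.Quot ∧ C.Res ∧ C.Coind

theorem equivalences (hS : S.IsGalois) {A C : S.Cls} (hA : A.IsStable) (hC : C.IsStable)
    (hC' : C.Sums) (B : S.Fld → Prop) (hB : IsBase S B) :
    ((∀ K, AllSemisimple A C K) ↔ ∀ K, B K → AllIrr A C K) ∧
    ((∀ K, AllSemisimple A C K) ↔ ∀ K, AllLie A C K) := by
  obtain ⟨a1, a2, a3, a4⟩ := hA
  obtain ⟨c1, c2, c3, c4⟩ := hC
  simp only [allSemisimple_iff a1 hC']
  refine ⟨⟨fun h K _ => h K, fun h L => ?_⟩, ⟨fun h K V _ _ _ ρ hρ hAρ =>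
    h K V ρ (hρ.isIrr hS) hAρ, fun h K => allIrr_of_lie hS a2 a3 c1 c4 fun L _ => h L⟩⟩
  obtain ⟨K, hK, ⟨e⟩⟩ := hB L
  exact allIrr_of_ext hS a1 a4 c2 c3 e (h K hK)

theorem equivalences_det (hS : S.IsGalois) {A C : S.Cls} (hA : A.IsStable) (hC : C.IsStable)
    (B : S.Fld → Prop) (hB : IsBase S B) :
    ((∀ K, AllFiniteDet A C K) ↔ ∀ K, B K → AllFiniteDet A C K) ∧
    (HasTwists A C → ((∀ K, AllFiniteDet A C K) ↔ ∀ K, AllFiniteDetLie A C K)) := by
  obtain ⟨a1, a2, a3, a4⟩ := hA
  obtain ⟨c1, c2, c3, c4⟩ := hC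
  refine ⟨⟨fun h K _ => h K, fun h L => ?_⟩, fun htw => ⟨fun h K V _ _ _ ρ hρ hdet hAρ =>
    h K V ρ (hρ.isIrr hS) hdet hAρ,
    fun h K => allFiniteDet_of_lie hS a2 a3 c1 c4 htw fun L _ => h L⟩⟩
  obtain ⟨K, hK, ⟨e⟩⟩ := hB L
  exact allFiniteDet_of_ext hS a1 a4 c2 c3 e (h K hK)

end Sys

end Pool.Agent.X264.GO
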