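import Pool.Agent.X264.GO.Clif

/-!
# Classes of representations of Galois groups, restriction and coinduction
-/

set_option autoImplicit false

namespace Pool.Agent.X264.GO

/-- a system of fields with their Galois groups (over which representations are considered) and
with finite separable extensions; `k` is the field of coefficients -/
structure Sys (k : Type) [Field k] where
  /-- the fields -/
  Fld : Type
  /-- their absolute Galois groups -/
  Gal : Fld → Type
  /-- the group structure -/
  grp : ∀ K, Group (Gal K)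
  /-- `Ext K L`: the finite separable extensions `K → L` (with a choice of an embedding of the
  separable closures) -/
  Ext : Fld → Fld → Type
  /-- the inclusion of the Galois group of `L` into the one of `K` -/
  res : ∀ {K L}, Ext K L → (Gal L →* Gal K)

namespace Sys

variable {k : Type} [Field k] (S : Sys k)

instance (K : S.Fld) : Group (S.Gal K) := S.grp K

/-- a representation of the Galois group of `K` on `V` -/
abbrev Rep (K : S.Fld) (V : Type) [AddCommGroup V] [Module k V] : Type :=
  Representation k (S.Gal K) V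

/-- the restriction of a representation to the Galois group of an extension -/
def restr {S : Sys k} {K L : S.Fld} (e : S.Ext K L) {V : Type} [AddCommGroup V] [Module k V]
    (ρ : S.Rep K V) : S.Rep L V := MonoidHom.comp ρ (S.res e)

/-- **Hypothesis**: the Galois group of an extension is a subgroup of finite index; there are the
trivial extensions, and extensions can be composed -/
def IsGalois : Prop :=
  (∀ {K L : S.Fld} (e : S.Ext K L), Function.Injective (S.res e) ∧ (S.res e).range.FiniteIndex) ∧
  (∀ K : S.Fld, ∃ e : S.Ext K K, S.res e = MonoidHom.id _) ∧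
  (∀ {K L M : S.Fld} (e : S.Ext K L) (e' : S.Ext L M),
    ∃ e'' : S.Ext K M, S.res e'' = (S.res e).comp (S.res e'))

/-- a class of representations of Galois groups -/
def Cls : Type 1 :=
  ∀ (K : S.Fld) (V : Type) [AddCommGroup V] [Module k V], S.Rep K V → Prop

variable {S}

/-- closed under subrepresentations -/
def Cls.Sub (C : S.Cls) : Prop :=
  ∀ (K : S.Fld) (V W : Type) [AddCommGroup V] [Module k V] [AddCommGroup W] [Module k W]
    (ρ : S.Rep K V) (σ : S.Rep K W) (f : V →ₗ[k] W),
    IsMap ρ σ f → Function.Injective f → C K W σ → C K V ρ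

/-- closed under quotients -/
def Cls.Quot (C : S.Cls) : Prop :=
  ∀ (K : S.Fld) (V W : Type) [AddCommGroup V] [Module k V] [AddCommGroup W] [Module k W]
    (ρ : S.Rep K V) (σ : S.Rep K W) (f : V →ₗ[k] W),
    IsMap ρ σ f → Function.Surjective f → C K V ρ → C K W σ

/-- closed under restriction to finite extensions -/
def Cls.Res (C : S.Cls) : Prop :=
  ∀ (K L : S.Fld) (e : S.Ext K L) (V : Type) [AddCommGroup V] [Module k V] (ρ : S.Rep K V),
    C K V ρ → C L V (restr e ρ)

/-- the coinduced (= induced) representation for a finite extension -/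
def coind {K L : S.Fld} (e : S.Ext K L) {W : Type} [AddCommGroup W] [Module k W]
    (ρ : S.Rep L W) : S.Rep K (Representation.coindV (S.res e) ρ) :=
  Representation.coind (S.res e) ρ

/-- closed under coinduction from finite extensions -/
def Cls.Coind (C : S.Cls) : Prop :=
  ∀ (K L : S.Fld) (e : S.Ext K L) (W : Type) [AddCommGroup W] [Module k W] (ρ : S.Rep L W),
    C L W ρ → C K _ (coind e ρ)

section coind

variable {K L : S.Fld} (e : S.Ext K L) {W : Type} [AddCommGroup W] [Module k W]
  (ρ : S.Rep L W)

theorem coind_apply (g x : S.Gal K) (f : Representation.coindV (S.res e) ρ) :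
    (coind e ρ g f).1 x = f.1 (x * g) := rfl

/-- evaluation at the unit element -/
def ev : Representation.coindV (S.res e) ρ →ₗ[k] W where
  toFun f := f.1 1
  map_add' _ _ := rfl
  map_smul' _ _ := rfl

theorem isMap_ev : IsMap (restr e (coind e ρ)) ρ (ev e ρ) := by
  intro g f
  change f.1 (1 * S.res e g) = ρ g (f.1 1)
  rw [one_mul, ← f.2 g 1, mul_one]

theorem finite_coind (hfin : (S.res e).range.FiniteIndex) [FiniteDimensional k W] :
    FiniteDimensional k (Representation.coindV (S.res e) ρ) := by
  classical
  have : Finite (S.Gal K ⧸ (S.res e).range) := inferInstance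
  let F : Representation.coindV (S.res e) ρ →ₗ[k] (S.Gal K ⧸ (S.res e).range → W) :=
    { toFun := fun f q => f.1 q.out⁻¹
      map_add' := fun _ _ => rfl
      map_smul' := fun _ _ => rfl }
  refine FiniteDimensional.of_injective F fun f f' hff => Subtype.ext (funext fun x => ?_)
  have hmem : x * ((x⁻¹ : S.Gal K) : S.Gal K ⧸ (S.res e).range).out ∈ (S.res e).range := by
    have h1 : ((x⁻¹ : S.Gal K) : S.Gal K ⧸ (S.res e).range) =
      (((x⁻¹ : S.Gal K) : S.Gal K ⧸ (S.res e).range).out : S.Gal K ⧸ (S.res e).range) :=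
        (QuotientGroup.out_eq' _).symm
    rw [QuotientGroup.eq, inv_inv] at h1
    exact h1
  obtain ⟨d, hd⟩ := hmem
  set y := ((x⁻¹ : S.Gal K) : S.Gal K ⧸ (S.res e).range).out with hy
  have hx : x = S.res e d * y⁻¹ := by rw [hd]; group
  have h2 : f.1 y⁻¹ = f'.1 y⁻¹ := congrFun hff ((x⁻¹ : S.Gal K) : S.Gal K ⧸ (S.res e).range)
  rw [hx, f.2 d y⁻¹, f'.2 d y⁻¹, h2]

/-- the map to the coinduced representation -/
def toCoind {V : Type} [AddCommGroup V] [Module k V] (τ : S.Rep K V) (π : V →ₗ[k] W)
    (hπ : IsMap (restr e τ) ρ π) : V →ₗ[k] Representation.coindV (S.res e) ρ where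
  toFun v := ⟨fun g => π (τ g v), fun d g => by
    change π (τ (S.res e d * g) v) = ρ d (π (τ g v))
    rw [map_mul, Module.End.mul_apply]
    exact hπ d (τ g v)⟩
  map_add' v w := Subtype.ext (funext fun g => by
    change π (τ g (v + w)) = π (τ g v) + π (τ g w)
    rw [map_add, map_add])
  map_smul' c v := Subtype.ext (funext fun g => by
    change π (τ g (c • v)) = c • π (τ g v)
    rw [map_smul, map_smul])

theorem isMap_toCoind {V : Type} [AddCommGroup V] [Module k V] (τ : S.Rep K V) (π : V →ₗ[k] W)
    (hπ : IsMap (restr e τ) ρ π) : IsMap τ (coind e ρ) (toCoind e ρ τ π hπ) := by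
  intro g v
  refine Subtype.ext (funext fun x => ?_)
  change π (τ x (τ g v)) = π (τ (x * g) v)
  rw [map_mul, Module.End.mul_apply]

theorem toCoind_apply {V : Type} [AddCommGroup V] [Module k V] (τ : S.Rep K V) (π : V →ₗ[k] W)
    (hπ : IsMap (restr e τ) ρ π) (v : V) (g : S.Gal K) :
    (toCoind e ρ τ π hπ v).1 g = π (τ g v) := rfl

theorem nontrivial_coind (hinj : Function.Injective (S.res e)) [Nontrivial W] :
    Nontrivial (Representation.coindV (S.res e) ρ) := by
  classical
  obtain ⟨w, hw⟩ := exists_ne (0 : W)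
  let F : S.Gal K → W := fun x => if h : ∃ d, S.res e d = x then ρ h.choose w else 0
  have hF : ∀ d, F (S.res e d) = ρ d w := by
    intro d
    have h : ∃ d', S.res e d' = S.res e d := ⟨d, rfl⟩
    have h1 : F (S.res e d) = ρ h.choose w := dif_pos h
    rw [h1, hinj h.choose_spec]
  have hF0 : ∀ x, (¬ ∃ d, S.res e d = x) → F x = 0 := fun x h => dif_neg h
  have hmem : F ∈ Representation.coindV (S.res e) ρ := by
    intro d x
    by_cases h : ∃ d', S.res e d' = x
    · obtain ⟨d', rfl⟩ := h
      rw [← map_mul, hF, hF, map_mul, Module.End.mul_apply]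
    · rw [hF0 x h, map_zero]
      refine hF0 _ fun ⟨d', hd'⟩ => h ⟨d⁻¹ * d', ?_⟩
      rw [map_mul, hd', map_inv]
      group
  refine ⟨⟨⟨F, hmem⟩, 0, fun h => hw ?_⟩⟩
  have h1 : F (S.res e 1) = 0 := congrFun (congrArg Subtype.val h) _
  rw [hF, map_one] at h1
  exact h1

/-- there is an irreducible representation whose restriction has a given irreducible quotient -/
theorem exists_irr_over (hinj : Function.Injective (S.res e))
    (hfin : (S.res e).range.FiniteIndex) [FiniteDimensional k W] (hρ : IsIrr ρ) :
    ∃ (V : Type) (_ : AddCommGroup V) (_ : Module k V) (_ : FiniteDimensional k V)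
      (τ : S.Rep K V) (i : V →ₗ[k] Representation.coindV (S.res e) ρ) (π : V →ₗ[k] W),
      IsIrr τ ∧ IsMap τ (coind e ρ) i ∧ Function.Injective i ∧ IsMap (restr e τ) ρ π ∧ π ≠ 0 := by
  have := finite_coind e ρ hfin
  have := hρ.1
  have := nontrivial_coind e ρ hinj
  obtain ⟨U, hU, hirr⟩ := exists_irr_sub (coind e ρ)
  refine ⟨U, inferInstance, inferInstance, inferInstance, subRep (coind e ρ) U hU, U.subtype,
    (ev e ρ).comp U.subtype, hirr, isMap_subtype _ U hU, U.injective_subtype,
    fun g v => isMap_ev e ρ g v.1, fun h0 => ?_⟩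
  obtain ⟨u, hu⟩ := @exists_ne _ hirr.1 (0 : U)
  refine hu (Subtype.ext (Subtype.ext (funext fun x => ?_)))
  have h1 : ev e ρ (coind e ρ x u.1) = 0 :=
    LinearMap.congr_fun h0 ⟨coind e ρ x u.1, hU x u.1 u.2⟩
  have h2 : ev e ρ (coind e ρ x u.1) = u.1.1 x := by
    change u.1.1 (1 * x) = u.1.1 x
    rw [one_mul]
  rw [← h2, h1]
  rfl

end coind

end Sys

end Pool.Agent.X264.GO
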